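import Mathlib

set_option autoImplicit false

/-! Power diagrams: semi-discrete optimal transport. -/

namespace Pool.Agent.T9h56.ZN

open MeasureTheory Filter Topology Finset Matrix

variable {n : ℕ} {κ : Type} [Fintype κ] [Nonempty κ]

/-- the maximum of the affine functions -/
noncomputable def M (ξ : κ → Fin n → ℝ) (b : κ → ℝ) (x : Fin n → ℝ) : ℝ :=
  (univ : Finset κ).sup' univ_nonempty fun k => x ⬝ᵥ ξ k + b k

lemma le_M (ξ : κ → Fin n → ℝ) (b : κ → ℝ) (x : Fin n → ℝ) (k : κ) :
    x ⬝ᵥ ξ k + b k ≤ M ξ b x :=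
  le_sup' (fun k => x ⬝ᵥ ξ k + b k) (mem_univ k)

lemma M_le (ξ : κ → Fin n → ℝ) (b : κ → ℝ) (x : Fin n → ℝ) (a : ℝ)
    (h : ∀ k, x ⬝ᵥ ξ k + b k ≤ a) : M ξ b x ≤ a :=
  sup'_le _ _ fun k _ => h k

lemma continuous_dot (v : Fin n → ℝ) : Continuous fun x : Fin n → ℝ => x ⬝ᵥ v := by
  simp only [dotProduct]
  fun_prop

lemma continuous_M (ξ : κ → Fin n → ℝ) :
    Continuous (Function.uncurry (M ξ) : (κ → ℝ) × (Fin n → ℝ) → ℝ) := by
  show Continuous fun p : (κ → ℝ) × (Fin n → ℝ) =>
    (univ : Finset κ).sup' univ_nonempty fun k => p.2 ⬝ᵥ ξ k + p.1 k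
  apply Continuous.finset_sup'_apply
  intro k _
  exact ((continuous_dot (ξ k)).comp continuous_snd).add ((continuous_apply k).comp continuous_fst)

lemma continuous_M' (ξ : κ → Fin n → ℝ) (b : κ → ℝ) : Continuous (M ξ b) :=
  (continuous_M ξ).comp (continuous_const.prodMk continuous_id)

/-- the cells -/
def cell (L : Set (Fin n → ℝ)) (ξ : κ → Fin n → ℝ) (b : κ → ℝ) (k : κ) (t : ℝ) :
    Set (Fin n → ℝ) := {x | x ∈ L ∧ ∀ l, x ⬝ᵥ ξ l + b l ≤ x ⬝ᵥ ξ k + b k + t}

lemma isClosed_cell {L : Set (Fin n → ℝ)} (hL : IsCompact L) (ξ : κ → Fin n → ℝ) (b : κ → ℝ)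
    (k : κ) (t : ℝ) : IsClosed (cell L ξ b k t) := by
  have h1 : cell L ξ b k t = L ∩ ⋂ l, {x | x ⬝ᵥ ξ l + b l ≤ x ⬝ᵥ ξ k + b k + t} := by
    ext x
    simp [cell]
  rw [h1]
  apply hL.isClosed.inter
  apply isClosed_iInter
  intro l
  exact isClosed_le ((continuous_dot _).add continuous_const)
    (((continuous_dot _).add continuous_const).add continuous_const)

/-- **Power diagrams** with prescribed volumes of the cells. -/
theorem power {n : ℕ} (κ : Type) [Fintype κ] [Nonempty κ] (L : Set (Fin n → ℝ))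
    (ξ : κ → Fin n → ℝ) (ν : κ → ℝ) (hL : IsCompact L) (hν : ∀ k, 0 < ν k)
    (hsum : ∑ k, ν k = volume.real L) :
    ∃ b : κ → ℝ, ∀ k, ν k ≤
      volume.real {x | x ∈ L ∧ ∀ l, x ⬝ᵥ ξ l + b l ≤ x ⬝ᵥ ξ k + b k} := by
  classical
  have hint : ∀ b : κ → ℝ, IntegrableOn (M ξ b) L volume := fun b =>
    (continuous_M' ξ b).continuousOn.integrableOn_compact hL
  -- the bound
  obtain ⟨R, hR0, hR⟩ : ∃ R : ℝ, 0 ≤ R ∧ ∀ x ∈ L, ∀ k, |x ⬝ᵥ ξ k| ≤ R := by
    obtain ⟨C, hC⟩ := hL.exists_bound_of_continuousOn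
      (f := fun x : Fin n → ℝ => fun k : κ => x ⬝ᵥ ξ k)
      (continuous_pi fun k => continuous_dot (ξ k)).continuousOn
    refine ⟨max C 0, le_max_right _ _, fun x hx k => ?_⟩
    have h1 := norm_le_pi_norm (fun k : κ => x ⬝ᵥ ξ k) k
    rw [Real.norm_eq_abs] at h1
    exact le_trans h1 (le_trans (hC x hx) (le_max_left _ _))
  -- the functional
  let Φ : (κ → ℝ) → ℝ := fun b => (∫ x in L, M ξ b x) - ∑ k, ν k * b k
  have hΦ : Continuous Φ := by
    apply Continuous.sub
    · exact continuous_parametric_integral_of_continuous (continuous_M ξ) hL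
    · fun_prop
  obtain ⟨b, hb, hbmin⟩ := (isCompact_Icc (a := fun _ : κ => -(2 * R))
    (b := fun _ : κ => (0 : ℝ))).exists_isMinOn ⟨fun _ => 0, by
      constructor
      · intro k
        simp only
        linarith
      · exact le_refl _⟩ hΦ.continuousOn
  have hglob : ∀ b' : κ → ℝ, Φ b ≤ Φ b' := by
    intro b'
    obtain ⟨m, -, hm⟩ := exists_max_image (univ : Finset κ) b' univ_nonempty
    let b1 : κ → ℝ := fun k => b' k - b' m
    let b2 : κ → ℝ := fun k => max (b1 k) (-(2 * R))
    have h1 : Φ b1 = Φ b' := by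
      have h2 : ∀ x, M ξ b1 x = M ξ b' x - b' m := by
        intro x
        apply le_antisymm
        · apply M_le
          intro k
          have := le_M ξ b' x k
          show x ⬝ᵥ ξ k + (b' k - b' m) ≤ _
          linarith
        · have h3 : M ξ b' x ≤ M ξ b1 x + b' m := by
            apply M_le
            intro k
            have h4 := le_M ξ b1 x k
            have h5 : b1 k = b' k - b' m := rfl
            rw [h5] at h4
            linarith
          linarith
      show (∫ x in L, M ξ b1 x) - ∑ k, ν k * (b' k - b' m) =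
        (∫ x in L, M ξ b' x) - ∑ k, ν k * b' k
      simp only [h2, mul_sub]
      rw [integral_sub (hint b') (integrableOn_const hL.measure_lt_top.ne), setIntegral_const,
        sum_sub_distrib, ← sum_mul, hsum, smul_eq_mul]
      ring
    have h2 : Φ b2 ≤ Φ b1 := by
      have h3 : ∫ x in L, M ξ b2 x ≤ ∫ x in L, M ξ b1 x := by
        apply setIntegral_mono_on (hint b2) (hint b1) hL.measurableSet
        intro x hx
        apply M_le
        intro k
        rcases le_total (b1 k) (-(2 * R)) with h | h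
        · have h4 : b2 k = -(2 * R) := max_eq_right h
          have h5 := le_M ξ b1 x m
          have h6 : b1 m = 0 := sub_self _
          have h7 := abs_le.1 (hR x hx k)
          have h8 := abs_le.1 (hR x hx m)
          rw [h4]
          rw [h6] at h5
          linarith [h7.2, h8.1]
        · have h4 : b2 k = b1 k := max_eq_left h
          rw [h4]
          exact le_M ξ b1 x k
      have h4 : ∑ k, ν k * b1 k ≤ ∑ k, ν k * b2 k :=
        sum_le_sum fun k _ => mul_le_mul_of_nonneg_left (le_max_left _ _) (hν k).le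
      show (∫ x in L, M ξ b2 x) - ∑ k, ν k * b2 k ≤ (∫ x in L, M ξ b1 x) - ∑ k, ν k * b1 k
      linarith
    have h3 : b2 ∈ Set.Icc (fun _ : κ => -(2 * R)) (fun _ : κ => (0 : ℝ)) := by
      constructor
      · intro k
        exact le_max_right _ _
      · intro k
        apply max_le
        · show b' k - b' m ≤ 0
          linarith [hm k (mem_univ k)]
        · show -(2 * R) ≤ 0
          linarith
    calc Φ b ≤ Φ b2 := hbmin h3
      _ ≤ Φ b1 := h2
      _ = Φ b' := h1
  have hfin : ∀ k t, volume (cell L ξ b k t) ≠ ⊤ := fun k t =>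
    ((measure_mono fun _ hx => hx.1).trans_lt hL.measure_lt_top).ne
  -- positive t
  have hstep : ∀ k, ∀ t : ℝ, 0 < t → ν k ≤ volume.real (cell L ξ b k t) := by
    intro k t ht
    let bt : κ → ℝ := Function.update b k (b k + t)
    have h1 := hglob bt
    have h2 : ∑ l, ν l * bt l = ∑ l, ν l * b l + ν k * t := by
      rw [← add_sum_erase _ _ (mem_univ k), ← add_sum_erase _ (fun l => ν l * b l) (mem_univ k)]
      have h3 : ∑ l ∈ univ.erase k, ν l * bt l = ∑ l ∈ univ.erase k, ν l * b l := by
        refine sum_congr rfl fun l hl => ?_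
        have : bt l = b l := Function.update_of_ne (ne_of_mem_erase hl) _ _
        rw [this]
      have h4 : bt k = b k + t := Function.update_self _ _ _
      rw [h3, h4]
      ring
    have hcm : MeasurableSet (cell L ξ b k t) := (isClosed_cell hL ξ b k t).measurableSet
    have hind : IntegrableOn (fun x => (cell L ξ b k t).indicator (fun _ => t) x) L volume := by
      apply Integrable.integrableOn
      rw [integrable_indicator_iff hcm]
      exact integrableOn_const (hfin k t)
    have h3 : ∫ x in L, M ξ bt x ≤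
        ∫ x in L, (M ξ b x + (cell L ξ b k t).indicator (fun _ => t) x) := by
      apply setIntegral_mono_on (hint bt) ((hint b).add hind) hL.measurableSet
      intro x hx
      show M ξ bt x ≤ M ξ b x + (cell L ξ b k t).indicator (fun _ => t) x
      apply M_le
      intro l
      by_cases hl : l = k
      · subst hl
        have h4 : bt l = b l + t := Function.update_self _ _ _
        rw [h4]
        by_cases hxc : x ∈ cell L ξ b l t
        · rw [Set.indicator_of_mem hxc]
          linarith [le_M ξ b x l]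
        · rw [Set.indicator_of_notMem hxc, add_zero]
          have h5 : ∃ j, x ⬝ᵥ ξ l + b l + t < x ⬝ᵥ ξ j + b j := by
            by_contra hcon
            push Not at hcon
            exact hxc ⟨hx, hcon⟩
          obtain ⟨j, hj⟩ := h5
          linarith [le_M ξ b x j]
      · have h4 : bt l = b l := Function.update_of_ne hl _ _
        rw [h4]
        have h5 : 0 ≤ (cell L ξ b k t).indicator (fun _ => t) x :=
          Set.indicator_nonneg (fun _ _ => ht.le) x
        linarith [le_M ξ b x l]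
    have h4 : ∫ x in L, (M ξ b x + (cell L ξ b k t).indicator (fun _ => t) x) =
        (∫ x in L, M ξ b x) + volume.real (cell L ξ b k t) * t := by
      rw [integral_add (hint b) hind, setIntegral_indicator hcm, setIntegral_const, smul_eq_mul]
      congr 2
      congr 1
      exact Set.inter_eq_right.2 fun _ hx => hx.1
    have h5 : (∫ x in L, M ξ b x) - ∑ l, ν l * b l ≤ (∫ x in L, M ξ bt x) - ∑ l, ν l * bt l := h1
    rw [h2] at h5
    rw [h4] at h3
    have h6 : ν k * t ≤ volume.real (cell L ξ b k t) * t := by linarith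
    exact le_of_mul_le_mul_right h6 ht
  -- the limit
  refine ⟨b, fun k => ?_⟩
  let s : ℕ → Set (Fin n → ℝ) := fun j => cell L ξ b k (1 / ((j : ℝ) + 1))
  have hanti : Antitone s := by
    intro i j hij x hx
    refine ⟨hx.1, fun l => le_trans (hx.2 l) ?_⟩
    have h1 : 1 / ((j : ℝ) + 1) ≤ 1 / ((i : ℝ) + 1) := Nat.one_div_le_one_div hij
    linarith
  have hinter : ⋂ j, s j = {x | x ∈ L ∧ ∀ l, x ⬝ᵥ ξ l + b l ≤ x ⬝ᵥ ξ k + b k} := by
    ext x
    rw [Set.mem_iInter]
    constructor
    · intro hx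
      refine ⟨(hx 0).1, fun l => ?_⟩
      have h1 : Tendsto (fun j : ℕ => x ⬝ᵥ ξ k + b k + 1 / ((j : ℝ) + 1)) atTop
          (𝓝 (x ⬝ᵥ ξ k + b k + 0)) :=
        tendsto_const_nhds.add tendsto_one_div_add_atTop_nhds_zero_nat
      rw [add_zero] at h1
      exact ge_of_tendsto' h1 fun j => (hx j).2 l
    · intro hx j
      refine ⟨hx.1, fun l => le_trans (hx.2 l) ?_⟩
      have h1 : (0 : ℝ) < 1 / ((j : ℝ) + 1) := Nat.one_div_pos_of_nat
      linarith
  have hlim := tendsto_measure_iInter_atTop (μ := volume) (s := s)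
    (fun j => (isClosed_cell hL ξ b k _).measurableSet.nullMeasurableSet) hanti ⟨0, hfin k _⟩
  rw [hinter] at hlim
  have hfin' : volume {x | x ∈ L ∧ ∀ l, x ⬝ᵥ ξ l + b l ≤ x ⬝ᵥ ξ k + b k} ≠ ⊤ :=
    ((measure_mono fun _ hx => hx.1).trans_lt hL.measure_lt_top).ne
  have hlim' := (ENNReal.tendsto_toReal hfin').comp hlim
  refine ge_of_tendsto' hlim' fun j => ?_
  exact hstep k _ Nat.one_div_pos_of_nat

end Pool.Agent.T9h56.ZN
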